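import Pool.Agent.AltHP.Cut
import Pool.Agent.AltHP.GOne

/-! A half-plane with large discrepancy gives a long simple alternating path, in general position. -/

namespace Pool.Agent.Results.MP_421d50_co.HalfPlane

open Pool.Agent.AltPath Pool.Agent.AltHP Pool.Agent.HPD79

open scoped Classical in
/-- If R and B are disjoint sets of n points each, no three of the 2n points are collinear, and
some open half-plane contains at least eps n more points of one colour than of the other, then
there is a simple alternating path with at least (1 + eps / (14 log2 (2 / eps))) n vertices. -/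
theorem result (n : ℕ) (R B : Finset (ℝ × ℝ)) (hR : R.card = n) (hB : B.card = n)
    (hdis : Disjoint R B)
    (hgen : ∀ p ∈ R ∪ B, ∀ q ∈ R ∪ B, ∀ r ∈ R ∪ B, p ≠ q → p ≠ r → q ≠ r →
      ¬ Collinear ℝ ({p, q, r} : Set (ℝ × ℝ)))
    (ε : ℝ) (hε : 0 < ε) (hε1 : ε ≤ 1) (a b t : ℝ)
    (hD : ε * n ≤ |((R.filter fun p => t < a * p.1 + b * p.2).card : ℝ) -
      ((B.filter fun p => t < a * p.1 + b * p.2).card : ℝ)|) :
    ∃ k : ℕ, HasPath R B k ∧ (1 + ε / (14 * Real.logb 2 (2 / ε))) * n ≤ k := by
  have hgp : GP (R ∪ B) := gp_of_not_collinear hgen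
  rcases Nat.eq_zero_or_pos n with hn | hn
  · subst hn
    exact ⟨0, ⟨fun _ => 0, fun i hi => by omega, fun i j hi => by omega, fun i hi => by omega,
      fun i j hj => by omega, fun i hi => by omega⟩, by simp⟩
  have h1 : HasPath R B (n + 1) := hasPath_succ hdis hgp hR hB hn
  obtain ⟨H, hH⟩ : ∃ H, H = (R ∪ B).filter (fun p => t < a * p.1 + b * p.2) := ⟨_, rfl⟩
  have hHP : IsHP79 (R ∪ B) H := by
    refine ⟨by rw [hH]; exact Finset.filter_subset _ _, (-a, -b), ?_⟩
    intro x hx y hy hyH
    rw [hH, Finset.mem_filter] at hx hyH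
    have h2 : ¬ t < a * y.1 + b * y.2 := fun h => hyH ⟨hy, h⟩
    simp only [dt]
    linarith [hx.2]
  have e1 : R ∩ H = R.filter (fun p => t < a * p.1 + b * p.2) := by
    ext q
    rw [hH, Finset.mem_inter, Finset.mem_filter, Finset.mem_filter, Finset.mem_union]
    tauto
  have e2 : B ∩ H = B.filter (fun p => t < a * p.1 + b * p.2) := by
    ext q
    rw [hH, Finset.mem_inter, Finset.mem_filter, Finset.mem_filter, Finset.mem_union]
    tauto
  have e3 := Dc79_eq hdis hHP.1
  rw [e1, e2] at e3
  refine real_bound cut hdis hgp hR hB h1 hHP hε hε1 ?_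
  rw [e3]
  push_cast
  exact hD

end Pool.Agent.Results.MP_421d50_co.HalfPlane
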