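import Pool.Agent.AltAll.Hull30

/-! An unbalanced convex hull of k points of the set gives a long simple alternating path, in
general position. -/

namespace Pool.Agent.Results.MP_421d50_co.Hulls

open Pool.Agent.AltPath Pool.Agent.AltHP Pool.Agent.HPD79 Pool.Agent.AltAll

open scoped Classical in
/-- If R and B are disjoint sets of n points each, no three of the 2n points are collinear, F is a
set of k of these points and the convex hull of F contains at least eps n more points of one colour
than of the other, then there is a simple alternating path with at least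
(1 + eps / (4620 k log2 (660 k / eps))) n vertices. -/
theorem result (n k : ℕ) (R B F : Finset (ℝ × ℝ)) (hR : R.card = n) (hB : B.card = n)
    (hdis : Disjoint R B)
    (hgen : ∀ p ∈ R ∪ B, ∀ q ∈ R ∪ B, ∀ r ∈ R ∪ B, p ≠ q → p ≠ r → q ≠ r →
      ¬ Collinear ℝ ({p, q, r} : Set (ℝ × ℝ)))
    (hF : F ⊆ R ∪ B) (hk : F.card = k) (ε : ℝ) (hε : 0 < ε) (hε1 : ε ≤ 1)
    (hD : ε * n ≤ |((R.filter fun p => p ∈ convexHull ℝ (F : Set (ℝ × ℝ))).card : ℝ) -
      ((B.filter fun p => p ∈ convexHull ℝ (F : Set (ℝ × ℝ))).card : ℝ)|) :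
    ∃ m : ℕ, HasPath R B m ∧ (1 + ε / (4620 * k * Real.logb 2 (660 * k / ε))) * n ≤ m := by
  have hgp : GP (R ∪ B) := gp_of_not_collinear hgen
  rcases Nat.eq_zero_or_pos n with hn | hn
  · subst hn
    exact ⟨0, ⟨fun _ => 0, fun i hi => by omega, fun i j hi => by omega, fun i hi => by omega,
      fun i j hj => by omega, fun i hi => by omega⟩, by simp⟩
  obtain ⟨T, hT⟩ : ∃ T, T = (R ∪ B).filter (fun p => p ∈ convexHull ℝ (F : Set (ℝ × ℝ))) :=
    ⟨_, rfl⟩
  have hTm : ∀ p, p ∈ T ↔ p ∈ R ∪ B ∧ p ∈ convexHull ℝ (F : Set (ℝ × ℝ)) := by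
    intro p; rw [hT]; exact Finset.mem_filter
  have hTP : T ⊆ R ∪ B := by rw [hT]; exact Finset.filter_subset _ _
  have hnr : (0 : ℝ) < n := by exact_mod_cast hn
  have hk1 : 1 ≤ k := by
    by_contra h
    have h0 : F.card = 0 := by omega
    have hF0 : F = ∅ := Finset.card_eq_zero.mp h0
    rw [hF0] at hD
    have e : ∀ S : Finset (ℝ × ℝ), (S.filter fun p => p ∈ convexHull ℝ
        ((∅ : Finset (ℝ × ℝ)) : Set (ℝ × ℝ))) = ∅ := by
      intro S
      apply Finset.filter_eq_empty_iff.mpr
      intro p _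
      rw [Finset.coe_empty, convexHull_empty]
      exact Set.notMem_empty p
    rw [e, e] at hD
    simp only [Finset.card_empty, Nat.cast_zero, sub_zero, abs_zero] at hD
    have := mul_pos hε hnr
    linarith
  have e1 : R ∩ T = R.filter (fun p => p ∈ convexHull ℝ (F : Set (ℝ × ℝ))) := by
    ext q
    rw [Finset.mem_inter, hTm, Finset.mem_filter, Finset.mem_union]
    tauto
  have e2 : B ∩ T = B.filter (fun p => p ∈ convexHull ℝ (F : Set (ℝ × ℝ))) := by
    ext q
    rw [Finset.mem_inter, hTm, Finset.mem_filter, Finset.mem_union]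
    tauto
  have e3 := Dc79_eq hdis hTP
  rw [e1, e2] at e3
  refine hulls30 hdis hgp hR hB hn hF hk.le hk1 hTm hε hε1 ?_
  rw [e3]
  push_cast
  exact hD

end Pool.Agent.Results.MP_421d50_co.Hulls
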