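import Pool.Agent.AltPath.Path

/-! Long simple alternating paths for almost all balanced colourings of every point set. -/

namespace Pool.Agent.Results.MP_421d50_co.RandomColourings

open Pool.Agent.AltPath

open scoped Classical in
/-- The number of all colourings (balanced or not) without a long path. -/
theorem count_bad (n : ℕ) (hn : 0 < n) (P : Finset (ℝ × ℝ)) (hcard : P.card = 2 * n)
    (hgp : GP P) (s : ℝ) (hs : 0 ≤ s) (F : Finset (Finset (ℝ × ℝ))) (hF : F ⊆ P.powerset)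
    (hbad : ∀ R ∈ F, ¬ ∃ k : ℕ, 3 / 2 * (n : ℝ) - 1 / 4 - s ≤ k ∧ HasPath R (P \ R) k) :
    (F.card : ℝ) ≤ 4 ^ n * Real.exp (-(4 * s ^ 2) / (9 * n)) := by
  have hne : P.Nonempty := Finset.card_pos.mp (by omega)
  obtain ⟨p, hp, hsep⟩ := exists_sep P hne
  have hn' : (0 : ℝ) < n := by exact_mod_cast hn
  set L : ℝ := 8 * s / (9 * n) with hLdef
  have hL : 0 ≤ L := by positivity
  obtain ⟨m, hm⟩ : ∃ m, 2 * n = m + 1 := ⟨2 * n - 1, by omega⟩
  have hQcard : (P.erase p).card = m := by rw [Finset.card_erase_of_mem hp]; omega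
  have hgp' : GP (insert p (P.erase p)) := by rwa [Finset.insert_erase hp]
  have hst := (all_states (params L hL) m).1
  obtain ⟨N1, hN1, hs1⟩ := hst p (P.erase p) true hQcard (Finset.notMem_erase p P) hgp' hsep
  obtain ⟨N0, hN0, hs0⟩ := hst p (P.erase p) false hQcard (Finset.notMem_erase p P) hgp' hsep
  set x : ℝ := Real.exp (-L) with hx
  have hx0 : 0 < x := Real.exp_pos _
  -- a bad colouring has a short continuation
  have key : ∀ (c : Bool) (N : Finset (ℝ × ℝ) → ℕ)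
      (_ : ∀ S, S ⊆ P.erase p → OK p c (P.erase p) S (N S)) (R : Finset (ℝ × ℝ)),
      R ∈ F → (p ∈ R ↔ c = true) →
      1 ≤ Real.exp (L * (3 / 2 * (n : ℝ) - 5 / 4 - s)) * x ^ (N (R.erase p)) := by
    intro c N hN R hR hc
    have hRP : R ⊆ P := Finset.mem_powerset.mp (hF hR)
    obtain ⟨l, hl, hnd, hQ, hgood, halt⟩ := hN (R.erase p) (Finset.erase_subset_erase p hRP)
    have hpath : HasPath R (P \ R) (l.length + 1) := by
      refine hasPath_of_list hp hRP (fun q hq => (Finset.mem_erase.mp (hQ q hq)).2) ?_ hgood ?_ hc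
      · exact List.nodup_cons.mpr ⟨fun h => (Finset.mem_erase.mp (hQ p h)).1 rfl, hnd⟩
      · refine halt.congr l c (fun q hq => ?_)
        rw [Finset.mem_erase]
        exact ⟨fun t => t.2, fun t => ⟨(Finset.mem_erase.mp (hQ q hq)).1, t⟩⟩
    have hlt : ((N (R.erase p) : ℕ) : ℝ) < 3 / 2 * (n : ℝ) - 5 / 4 - s := by
      by_contra hcon
      push Not at hcon
      apply hbad R hR
      refine ⟨l.length + 1, ?_, hpath⟩
      rw [hl]
      push_cast
      linarith
    rw [hx, ← Real.exp_nat_mul, ← Real.exp_add]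
    rw [← Real.exp_zero]
    apply Real.exp_le_exp.mpr
    nlinarith [mul_nonneg hL (sub_nonneg.mpr hlt.le)]
  have hsum : (F.card : ℝ) ≤ ∑ R ∈ P.powerset, Real.exp (L * (3 / 2 * (n : ℝ) - 5 / 4 - s)) *
      x ^ (if p ∈ R then N1 (R.erase p) else N0 (R.erase p)) := by
    calc (F.card : ℝ) = ∑ R ∈ F, (1 : ℝ) := by simp
      _ ≤ ∑ R ∈ F, Real.exp (L * (3 / 2 * (n : ℝ) - 5 / 4 - s)) *
          x ^ (if p ∈ R then N1 (R.erase p) else N0 (R.erase p)) := by
          refine Finset.sum_le_sum fun R hR => ?_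
          by_cases hpR : p ∈ R
          · rw [if_pos hpR]
            exact key true N1 hN1 R hR (by simp [hpR])
          · rw [if_neg hpR]
            exact key false N0 hN0 R hR (by simp [hpR])
      _ ≤ _ := Finset.sum_le_sum_of_subset_of_nonneg hF (fun R _ _ => by positivity)
  have hsplit : ∑ R ∈ P.powerset, Real.exp (L * (3 / 2 * (n : ℝ) - 5 / 4 - s)) *
      x ^ (if p ∈ R then N1 (R.erase p) else N0 (R.erase p)) =
      Real.exp (L * (3 / 2 * (n : ℝ) - 5 / 4 - s)) *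
        (∑ S ∈ (P.erase p).powerset, x ^ (N1 S) + ∑ S ∈ (P.erase p).powerset, x ^ (N0 S)) := by
    rw [sum_split true hp, mul_add, Finset.mul_sum, Finset.mul_sum]
    congr 1
    · refine Finset.sum_congr rfl fun S hS => ?_
      have hpS : p ∉ S := fun h => (Finset.mem_erase.mp (Finset.mem_powerset.mp hS h)).1 rfl
      rw [if_pos ((mem_put_self hpS).mpr rfl), put_erase hpS]
    · refine Finset.sum_congr rfl fun S hS => ?_
      have hpS : p ∉ S := fun h => (Finset.mem_erase.mp (Finset.mem_powerset.mp hS h)).1 rfl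
      have : ¬ p ∈ put (!true) p S := by rw [mem_put_self hpS]; simp
      rw [if_neg this, put_erase hpS]
  rw [hsplit] at hsum
  refine hsum.trans ?_
  have hE : 0 < Real.exp (L * (3 / 2 * (n : ℝ) - 5 / 4 - s)) := Real.exp_pos _
  refine (mul_le_mul_of_nonneg_left (add_le_add hs1 hs0) hE.le).trans ?_
  have hmn : (m : ℝ) = 2 * n - 1 := by
    have : ((2 * n : ℕ) : ℝ) = ((m + 1 : ℕ) : ℝ) := by rw [hm]
    push_cast at this
    linarith
  have e1 : Real.exp (L * (3 / 2 * (n : ℝ) - 5 / 4 - s)) *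
      (Real.exp (L / 2) * (2 * Real.exp (-3 * L / 4 + 9 * L ^ 2 / 32)) ^ m +
        Real.exp (L / 2) * (2 * Real.exp (-3 * L / 4 + 9 * L ^ 2 / 32)) ^ m) =
      (2 * 2 ^ m) * (Real.exp (L * (3 / 2 * (n : ℝ) - 5 / 4 - s)) * Real.exp (L / 2) *
        Real.exp (-3 * L / 4 + 9 * L ^ 2 / 32) ^ m) := by
    rw [mul_pow]; ring
  rw [e1]
  have e2 : (2 * 2 ^ m : ℝ) = 4 ^ n := by
    have : (2 * 2 ^ m : ℝ) = 2 ^ (m + 1) := by ring
    rw [this, ← hm, pow_mul]; norm_num
  rw [e2, ← Real.exp_nat_mul, ← Real.exp_add, ← Real.exp_add]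
  refine mul_le_mul_of_nonneg_left (Real.exp_le_exp.mpr ?_) (by positivity)
  rw [hmn]
  have hLn : L * (9 * n) = 8 * s := by rw [hLdef]; field_simp
  have e3 : L * (3 / 2 * (n : ℝ) - 5 / 4 - s) + L / 2 + (2 * (n : ℝ) - 1) *
      (-3 * L / 4 + 9 * L ^ 2 / 32) = -(L * s) + (2 * (n : ℝ) - 1) * (9 * L ^ 2 / 32) := by ring
  rw [e3]
  have e4 : 4 * s ^ 2 / (9 * n) = L * s / 2 := by
    rw [hLdef]; field_simp; ring
  have e5 : (2 * (n : ℝ) - 1) * (9 * L ^ 2 / 32) ≤ L * s / 2 := by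
    have : (2 * (n : ℝ)) * (9 * L ^ 2 / 32) = L * s / 2 := by
      have : (2 * (n : ℝ)) * (9 * L ^ 2 / 32) = L * (L * (9 * n)) / 16 := by ring
      rw [this, hLn]; ring
    nlinarith [sq_nonneg L]
  rw [neg_div, e4]
  linarith

open scoped Classical in
/-- For every set of 2n points in general position and every s ≥ 0, all but a proportion
2n exp(-4 s^2 / (9n)) of the balanced colourings have a simple alternating path with at least
3n/2 - 1/4 - s vertices. -/
theorem result (n : ℕ) (hn : 0 < n) (P : Finset (ℝ × ℝ)) (hcard : P.card = 2 * n)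
    (hgen : ∀ p ∈ P, ∀ q ∈ P, ∀ r ∈ P, p ≠ q → p ≠ r → q ≠ r →
      ¬ Collinear ℝ ({p, q, r} : Set (ℝ × ℝ)))
    (s : ℝ) (hs : 0 ≤ s) :
    (((P.powersetCard n).filter fun R =>
        ¬ ∃ k : ℕ, 3 / 2 * (n : ℝ) - 1 / 4 - s ≤ k ∧ HasPath R (P \ R) k).card : ℝ) ≤
      2 * n * Real.exp (-(4 * s ^ 2) / (9 * n)) * ((P.powersetCard n).card : ℝ) := by
  have h := count_bad n hn P hcard (gp_of_not_collinear hgen) s hs
    ((P.powersetCard n).filter fun R =>
        ¬ ∃ k : ℕ, 3 / 2 * (n : ℝ) - 1 / 4 - s ≤ k ∧ HasPath R (P \ R) k)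
    (fun R hR => Finset.mem_powerset.mpr
      (Finset.mem_powersetCard.mp (Finset.mem_filter.mp hR).1).1)
    (fun R hR => (Finset.mem_filter.mp hR).2)
  refine h.trans ?_
  rw [Finset.card_powersetCard, hcard]
  have h4 : (4 : ℝ) ^ n ≤ 2 * n * (Nat.choose (2 * n) n : ℝ) := by
    have := Nat.four_pow_le_two_mul_self_mul_centralBinom n hn
    rw [Nat.centralBinom] at this
    exact_mod_cast this
  calc (4 : ℝ) ^ n * Real.exp (-(4 * s ^ 2) / (9 * n))
      ≤ (2 * n * (Nat.choose (2 * n) n : ℝ)) * Real.exp (-(4 * s ^ 2) / (9 * n)) :=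
        mul_le_mul_of_nonneg_right h4 (Real.exp_pos _).le
    _ = 2 * n * Real.exp (-(4 * s ^ 2) / (9 * n)) * ((Nat.choose (2 * n) n : ℕ) : ℝ) := by ring

end Pool.Agent.Results.MP_421d50_co.RandomColourings
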